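import Pool.Agent.Helper143.OneMax.Step

/-!
# One query of a binary unbiased operator: exponential moments of the drop of the potential
-/

set_option autoImplicit false

namespace Pool.Agent.Y9.OM

open Pool.Agent.Helper143.OneMax

set_option linter.unusedSectionVars false

variable {ι : Type*} [Fintype ι] [DecidableEq ι]

theorem exp_half (a b : ℝ) : Real.exp ((a + b) / 2) ≤ (Real.exp a + Real.exp b) / 2 := by
  have h1 : Real.exp ((a + b) / 2) = Real.exp (a / 2) * Real.exp (b / 2) := by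
    rw [← Real.exp_add]; congr 1; ring
  have h2 : Real.exp a = Real.exp (a / 2) ^ 2 := by
    rw [← Real.exp_nat_mul]; congr 1; push_cast; ring
  have h3 : Real.exp b = Real.exp (b / 2) ^ 2 := by
    rw [← Real.exp_nat_mul]; congr 1; push_cast; ring
  rw [h1, h2, h3]
  nlinarith [sq_nonneg (Real.exp (a / 2) - Real.exp (b / 2))]

theorem exp_log_two : Real.exp (Real.log 2 / 4) ≤ 6 / 5 := by
  have h : Real.exp (Real.log 2 / 4) ^ 4 = 2 := by
    rw [← Real.exp_nat_mul]
    push_cast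
    rw [show 4 * (Real.log 2 / 4) = Real.log 2 by ring, Real.exp_log (by norm_num)]
  by_contra hc
  push Not at hc
  have h2 : (6 / 5 : ℝ) ^ 4 < Real.exp (Real.log 2 / 4) ^ 4 :=
    pow_lt_pow_left₀ hc (by norm_num) (by norm_num)
  rw [h] at h2
  norm_num at h2

/-- The deterministic part of one query, with the logarithm of the reweighted partition
function. -/
theorem step_log {L : List (ι → ℝ)} (hL : L ≠ []) {r : ι → ℝ} (hr : ∀ q, Dq L q ≤ Dq L r)
    (vb ξ : ι → ℝ) (hb : ∀ q, pr q vb ≤ Z L q) :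
    0 < MM L r ξ ∧ Phi L - (ip r ξ) ^ 2 / ip ξ ξ - 16 * Real.log 2
      - 16 * Real.log (MM L r ξ / Z L r) ≤ Phi ((fun i => vb i + ξ i) :: L) := by
  set α := ip r ξ / ip ξ ξ with hα
  set q : ι → ℝ := fun i => r i - α * ξ i with hq
  have hL' : ((fun i => vb i + ξ i) :: L) ≠ [] := by simp
  have hZr : 0 < Z L r := by have := two_le_Z hL r; linarith
  have hZq : 0 < Z L q := by have := two_le_Z hL q; linarith
  -- orthogonality
  have h0 : ip q ξ = 0 := by
    rw [hq, ip_sub_smul]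
    rcases eq_or_lt_of_le (ip_self_nonneg ξ) with h | h
    · rw [← h, ip_eq_zero_of_self h.symm r]; simp
    · rw [hα]; field_simp; ring
  have h1 : pr q (fun i => vb i + ξ i) = pr q vb := by
    unfold pr
    rw [ip_add, h0, add_zero]
  have h2 : Z ((fun i => vb i + ξ i) :: L) q ≤ 2 * Z L q := by
    rw [Z_cons, h1]
    have := hb q
    linarith
  have h3 := Z_shift_le L r ξ
  have hMM : 0 < MM L r ξ := lt_of_lt_of_le (mul_pos hZq (Real.exp_pos _)) h3
  refine ⟨hMM, ?_⟩
  refine le_trans ?_ (Dq_le_Phi hL' q)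
  rw [Phi_eq hL hr]
  have h4 : Real.log (Z L q) + α * ip (fun i => 1 - r i) ξ / 8 ≤ Real.log (MM L r ξ) := by
    have := Real.log_le_log (mul_pos hZq (Real.exp_pos _)) h3
    rwa [Real.log_mul hZq.ne' (Real.exp_pos _).ne', Real.log_exp] at this
  have h5 : Real.log (Z ((fun i => vb i + ξ i) :: L) q) ≤ Real.log 2 + Real.log (Z L q) := by
    have hpos : 0 < Z ((fun i => vb i + ξ i) :: L) q := by
      have := two_le_Z hL' q; linarith
    have := Real.log_le_log hpos h2
    rwa [Real.log_mul (by norm_num) hZq.ne'] at this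
  have h9 : α ^ 2 * ip ξ ξ = (ip r ξ) ^ 2 / ip ξ ξ := by
    rw [hα]
    rcases eq_or_lt_of_le (ip_self_nonneg ξ) with h | h
    · rw [← h]; simp
    · field_simp
  have h10 := Qd_shift r ξ α
  rw [Real.log_div hMM.ne' hZr.ne']
  unfold Dq
  rw [← hq] at h10
  rw [h10, h9]
  linarith

theorem g_exp (D : Finset ι) (x : ι → ℝ) (hx : ∀ k, x k ^ 2 = 1)
    (w : (ι → Bool) → ℝ) (hw0 : ∀ f, 0 ≤ w f) (hwD : Inv D w) (hwA : Inv Dᶜ w)
    (r : ι → ℝ) (hr : ∀ k, |r k| ≤ 2) :
    ∑ f, w f * Real.exp (ip r (xi D x f) ^ 2 / ip (xi D x f) (xi D x f) / 32)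
      ≤ 4 * ∑ f, w f := by
  have hx' : ∀ k, |x k| = 1 := fun k => by
    have := hx k
    rw [← sq_abs] at this
    have h0 := abs_nonneg (x k)
    nlinarith
  have hc : ∀ k, |r k * x k| ≤ 2 := by
    intro k
    rw [abs_mul, hx' k, mul_one]
    exact hr k
  refine le_trans (Finset.sum_le_sum (fun f _ => ?_)) (two_side_exp D _ hc w hw0 hwD hwA)
  refine mul_le_mul_of_nonneg_left (Real.exp_le_exp.2 ?_) (hw0 f)
  rw [← add_div]
  exact div_le_div_of_nonneg_right (ratio_le D x hx r f) (by norm_num)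

/-! ### Scaled vectors -/

/-- the vector `v` times `c` -/
def sc (c : ℝ) (v : ι → ℝ) : ι → ℝ := fun k => c * v k

theorem ip_sc (c : ℝ) (q v : ι → ℝ) : ip q (sc c v) = c * ip q v := by
  unfold ip sc
  rw [Finset.mul_sum]
  exact Finset.sum_congr rfl fun i _ => by ring

theorem ip_sc_sc (c : ℝ) (v : ι → ℝ) : ip (sc c v) (sc c v) = c ^ 2 * ip v v := by
  unfold ip sc
  rw [Finset.mul_sum]
  exact Finset.sum_congr rfl fun i _ => by ring

theorem pr_sc (c : ℝ) (q v : ι → ℝ) : pr q (sc c v) = pr (sc c q) v := by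
  have h : ip q (sc c v) = ip (sc c q) v := by
    unfold ip sc
    exact Finset.sum_congr rfl fun i _ => by ring
  unfold pr
  rw [h]

theorem ratio_sc {c : ℝ} (hc : c ≠ 0) (r v : ι → ℝ) :
    ip r (sc c v) ^ 2 / ip (sc c v) (sc c v) = ip r v ^ 2 / ip v v := by
  rw [ip_sc, ip_sc_sc, mul_pow]
  exact mul_div_mul_left _ _ (pow_ne_zero 2 hc)

theorem W_sc {c : ℝ} (hc : c ≠ 0) (v u : ι → ℝ) : W (sc c v) u = W v u := by
  unfold W
  rw [ip_sc, ip_sc_sc, mul_pow, show 32 * (c ^ 2 * ip v v) = c ^ 2 * (32 * ip v v) by ring]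
  exact mul_div_mul_left _ _ (pow_ne_zero 2 hc)

theorem MM_sc {c : ℝ} (hc : c ≠ 0) (L : List (ι → ℝ)) (r v : ι → ℝ) :
    MM L r (sc c v) = MM L r v := by
  unfold MM
  simp only [W_sc hc]

theorem sc_add (c : ℝ) (u v : ι → ℝ) :
    (fun k => sc c u k + sc c v k) = sc c (fun k => u k + v k) := by
  funext k
  unfold sc
  ring

section step

variable {L : List (ι → ℝ)} (hL : L ≠ []) (hB : Bdd L) {c : ℝ} (hc : c ≠ 0) (D : Finset ι)
  (x y : ι → ℝ) (hxL : sc c x ∈ L) (hyL : sc c y ∈ L) (hx : ∀ k, x k ^ 2 = 1)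
  (hy : ∀ k, y k = if k ∈ D then -x k else x k)
  (w : (ι → Bool) → ℝ) (hw0 : ∀ f, 0 ≤ w f) (hwD : Inv D w) (hwA : Inv Dᶜ w)
  (hw1 : ∑ f, w f = 1)

include hL hc hxL hyL hy in
theorem step_one {r : ι → ℝ} (hr : ∀ q, Dq L q ≤ Dq L r) (f : ι → Bool) :
    0 < MM L r (xi D x f) ∧ Phi L - ip r (xi D x f) ^ 2 / ip (xi D x f) (xi D x f) -
      16 * Real.log 2 - 16 * Real.log (MM L r (xi D x f) / Z L r) ≤
      Phi (sc c (fun k => x k * (1 - 2 * ind f k)) :: L) := by
  have h2 := step_log hL hr (sc c (vbar D x f)) (sc c (xi D x f)) (fun q => by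
    rw [pr_sc]
    refine (pr_vbar_le D x y hy f (sc c q)).trans (max_le ?_ ?_)
    · rw [← pr_sc]; exact pr_le_Z hxL q
    · rw [← pr_sc]; exact pr_le_Z hyL q)
  rw [sc_add, vbar_add_xi, ratio_sc hc, MM_sc hc] at h2
  exact h2

include hL hB hc hxL hyL hx hy hw0 hwD hwA hw1 in
/-- One query multiplies `exp (- Phi / 64)` by at most `4` in expectation. -/
theorem step_exp :
    ∑ f, w f * Real.exp (-Phi (sc c (fun k => x k * (1 - 2 * ind f k)) :: L) / 64) ≤
      4 * Real.exp (-Phi L / 64) := by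
  obtain ⟨r, hr⟩ := exists_max hL
  have hbox := max_mem_box hL hB hr
  have hr2 : ∀ k, |r k| ≤ 2 := fun k => by
    have := hbox k
    rw [abs_le]; constructor <;> linarith
  have hZr : 0 < Z L r := by have := two_le_Z hL r; linarith
  have h1 : ∀ f, Real.exp (-Phi (sc c (fun k => x k * (1 - 2 * ind f k)) :: L) / 64) ≤
      Real.exp (-Phi L / 64) * (6 / 5 * (Real.exp (ip r (xi D x f) ^ 2 /
        ip (xi D x f) (xi D x f) / 32) / 2 + (MM L r (xi D x f) / Z L r) / 4 + 1 / 4)) := by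
    intro f
    obtain ⟨hM, h2⟩ := step_one hL hc D x y hxL hyL hy hr f
    set g := ip r (xi D x f) ^ 2 / ip (xi D x f) (xi D x f) with hg
    set R := MM L r (xi D x f) / Z L r with hR
    have hR0 : 0 < R := div_pos hM hZr
    have h3 : -Phi (sc c (fun k => x k * (1 - 2 * ind f k)) :: L) / 64 ≤
        -Phi L / 64 + (Real.log 2 / 4 + (g / 32 + (Real.log R + 0) / 2) / 2) := by linarith
    refine (Real.exp_le_exp.2 h3).trans ?_
    rw [Real.exp_add, Real.exp_add]
    refine mul_le_mul_of_nonneg_left ?_ (Real.exp_pos _).le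
    have h4 := exp_half (g / 32) ((Real.log R + 0) / 2)
    have h5 := exp_half (Real.log R) 0
    rw [Real.exp_log hR0, Real.exp_zero] at h5
    have h6 : Real.exp ((g / 32 + (Real.log R + 0) / 2) / 2) ≤
        Real.exp (g / 32) / 2 + R / 4 + 1 / 4 := by linarith
    exact mul_le_mul exp_log_two h6 (Real.exp_pos _).le (by norm_num)
  refine (Finset.sum_le_sum fun f _ => mul_le_mul_of_nonneg_left (h1 f) (hw0 f)).trans ?_
  have h4 : ∑ f, w f * (Real.exp (-Phi L / 64) * (6 / 5 * (Real.exp (ip r (xi D x f) ^ 2 /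
        ip (xi D x f) (xi D x f) / 32) / 2 + (MM L r (xi D x f) / Z L r) / 4 + 1 / 4)))
      = Real.exp (-Phi L / 64) * (3 / 5 * (∑ f, w f * Real.exp (ip r (xi D x f) ^ 2 /
        ip (xi D x f) (xi D x f) / 32)) + 3 / 10 * ((∑ f, w f * MM L r (xi D x f)) / Z L r)
          + 3 / 10 * ∑ f, w f) := by
    rw [Finset.sum_div, Finset.mul_sum, Finset.mul_sum, Finset.mul_sum,
      ← Finset.sum_add_distrib, ← Finset.sum_add_distrib, Finset.mul_sum]
    refine Finset.sum_congr rfl (fun f _ => ?_)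
    ring
  rw [h4, hw1]
  have h5 := g_exp D x hx w hw0 hwD hwA r hr2
  have h6 := MM_avg D x hx w hw0 hwD hwA L hB r
  rw [hw1] at h5 h6
  have h7 : (∑ f, w f * MM L r (xi D x f)) / Z L r ≤ 4 := by
    rw [div_le_iff₀ hZr]
    linarith
  rw [mul_comm (4 : ℝ)]
  refine mul_le_mul_of_nonneg_left ?_ (Real.exp_pos _).le
  linarith

include hL hB hc hxL hyL hx hy hw0 hwD hwA hw1 in
/-- One query lowers the potential by at most `50` in expectation. -/
theorem step_lin : Phi L - 50 ≤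
    ∑ f, w f * Phi (sc c (fun k => x k * (1 - 2 * ind f k)) :: L) := by
  obtain ⟨r, hr⟩ := exists_max hL
  have hbox := max_mem_box hL hB hr
  have hr2 : ∀ k, |r k| ≤ 2 := fun k => by
    have := hbox k
    rw [abs_le]; constructor <;> linarith
  have hZr : 0 < Z L r := by have := two_le_Z hL r; linarith
  have h1 : ∀ f, Phi L - ip r (xi D x f) ^ 2 / ip (xi D x f) (xi D x f) - 16 * Real.log 2
      - 16 * (Real.log 4 + MM L r (xi D x f) / (4 * Z L r) - 1)
      ≤ Phi (sc c (fun k => x k * (1 - 2 * ind f k)) :: L) := by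
    intro f
    obtain ⟨hM, h2⟩ := step_one hL hc D x y hxL hyL hy hr f
    refine le_trans ?_ h2
    have h7 : 0 < MM L r (xi D x f) / (4 * Z L r) := by positivity
    have h8 := Real.log_le_sub_one_of_pos h7
    rw [Real.log_div hM.ne' (by positivity), Real.log_mul (by norm_num) hZr.ne'] at h8
    rw [Real.log_div hM.ne' hZr.ne']
    linarith
  have h3 : ∑ f, w f * (Phi L - ip r (xi D x f) ^ 2 / ip (xi D x f) (xi D x f)
      - 16 * Real.log 2 - 16 * (Real.log 4 + MM L r (xi D x f) / (4 * Z L r) - 1))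
      ≤ ∑ f, w f * Phi (sc c (fun k => x k * (1 - 2 * ind f k)) :: L) :=
    Finset.sum_le_sum (fun f _ => mul_le_mul_of_nonneg_left (h1 f) (hw0 f))
  refine le_trans ?_ h3
  have h4 : ∑ f, w f * (Phi L - ip r (xi D x f) ^ 2 / ip (xi D x f) (xi D x f)
      - 16 * Real.log 2 - 16 * (Real.log 4 + MM L r (xi D x f) / (4 * Z L r) - 1))
      = (Phi L - 16 * Real.log 2 - 16 * Real.log 4 + 16) * ∑ f, w f
        - ∑ f, w f * (ip r (xi D x f) ^ 2 / ip (xi D x f) (xi D x f))
        - 4 / Z L r * ∑ f, w f * MM L r (xi D x f) := by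
    rw [Finset.mul_sum, Finset.mul_sum, ← Finset.sum_sub_distrib, ← Finset.sum_sub_distrib]
    refine Finset.sum_congr rfl (fun f _ => ?_)
    field_simp
    ring
  rw [h4, hw1, mul_one]
  have h5 := g_avg D x hx w hw0 hwD hwA r hr2
  have h6 := MM_avg D x hx w hw0 hwD hwA L hB r
  rw [hw1] at h5 h6
  have h7 : 4 / Z L r * ∑ f, w f * MM L r (xi D x f) ≤ 16 := by
    calc _ ≤ 4 / Z L r * (4 * 1 * Z L r) := mul_le_mul_of_nonneg_left h6 (by positivity)
      _ = 16 := by field_simp; norm_num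
  have h8 := log_const
  linarith

end step

end Pool.Agent.Y9.OM
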