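import Pool.Agent.Y9.OM.Run

/-!
# Sets covered by Hamming balls, and all objective functions
-/

set_option autoImplicit false

namespace Pool.Agent.Y9.OM

open scoped ENNReal BigOperators
open Pool.Agent.Results.MP_f3079c_lc.BinaryLinear

open Classical in
/-- indicator that no query point is in `S` -/
noncomputable def nS {n t : ℕ} (S : Set (Pt n)) (h : Fin t → Pt n) : ℝ :=
  if ∀ i, h i ∉ S then 1 else 0

section

variable {n : ℕ} (σ : Strategy n 2) (S : Set (Pt n))

theorem nS_cases {t : ℕ} (h : Fin t → Pt n) : nS S h = 1 ∨ nS S h = 0 := by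
  unfold nS
  split_ifs
  · exact Or.inl rfl
  · exact Or.inr rfl

theorem nS_eq (t : ℕ) : (run σ t).toOuterMeasure {h | ∀ i, h i ∉ S} =
    ENNReal.ofReal (Ex (run σ t) (nS S)) := by
  classical
  rw [om_eq]
  rfl

theorem hit_eq (t : ℕ) : hitProb σ S t = ENNReal.ofReal (1 - Ex (run σ t) (nS S)) := by
  classical
  unfold hitProb
  rw [om_eq]
  congr 1
  have h1 : (1 : ℝ) - Ex (run σ t) (nS S) = Ex (run σ t) (fun h => 1 - nS S h) := by
    rw [Ex_sub, Ex_const]
  rw [h1]
  congr 1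
  funext h
  unfold nS
  simp only [Set.mem_ofPred_eq]
  by_cases hh : ∀ i, h i ∉ S
  · rw [if_pos hh, if_neg]
    · norm_num
    · rintro ⟨i, hi⟩
      exact hh i hi
  · rw [if_neg hh, if_pos]
    · norm_num
    · push Not at hh
      exact hh

theorem nS_nonneg (t : ℕ) : 0 ≤ Ex (run σ t) (nS S) := by
  have := Ex_mono (run σ t) (F := fun _ => 0) (G := nS S) (fun h => by
    rcases nS_cases S h with hh | hh <;> rw [hh]; norm_num)
  rwa [Ex_const] at this

theorem nS_one : Ex (run σ 0) (nS S) = 1 := by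
  rw [run, Ex_pure]
  unfold nS
  rw [if_pos (fun i => i.elim0)]

theorem Ex_sum {α β : Type} [Fintype α] (p : PMF α) (C : Finset β) (F : β → α → ℝ) :
    Ex p (fun a => ∑ c ∈ C, F c a) = ∑ c ∈ C, Ex p (F c) := by
  unfold Ex
  rw [Finset.sum_comm]
  exact Finset.sum_congr rfl fun a _ => Finset.mul_sum _ _ _

theorem covered_miss {m d : ℕ} (hd : 2 * d ≤ n) (hS : Covered S m d) (t : ℕ) :
    1 - m * Real.exp (-(ga n d - 14) / 64) * 4 ^ t ≤ Ex (run σ t) (nS S) := by
  obtain ⟨C, hC, hcov⟩ := hS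
  have h1 : Ex (run σ t) (fun h => 1 - nS S h) ≤
      Ex (run σ t) (fun h => ∑ z ∈ C, (1 - nh z d h)) := by
    refine Ex_mono _ fun h => ?_
    have hnn : ∀ z ∈ C, 0 ≤ 1 - nh z d h := fun z _ => by
      rcases nh_cases z d h with hh | hh <;> rw [hh] <;> norm_num
    by_cases hh : ∀ i, h i ∉ S
    · have : nS S h = 1 := by unfold nS; rw [if_pos hh]
      rw [this, sub_self]
      exact Finset.sum_nonneg hnn
    · have h0 : nS S h = 0 := by unfold nS; rw [if_neg hh]
      push Not at hh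
      obtain ⟨i, hi⟩ := hh
      obtain ⟨z, hz, hd⟩ := hcov _ hi
      have h2 : nh z d h = 0 := by
        unfold nh
        rw [if_neg]
        intro hc
        exact absurd (hc i) (not_lt.2 hd)
      have h3 := Finset.single_le_sum hnn hz
      rw [h2] at h3
      rw [h0]
      exact h3
  rw [Ex_sum, Ex_sub, Ex_const] at h1
  have h2 : ∑ z ∈ C, Ex (run σ t) (fun h => 1 - nh z d h) ≤
      ∑ _z ∈ C, 4 ^ t * Real.exp (-(ga n d - 14) / 64) := by
    refine Finset.sum_le_sum fun z _ => ?_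
    rw [Ex_sub, Ex_const]
    have := miss_ge σ z hd t
    linarith
  rw [Finset.sum_const, nsmul_eq_mul] at h2
  have h3 : (C.card : ℝ) ≤ m := by exact_mod_cast hC
  have h4 : (C.card : ℝ) * (4 ^ t * Real.exp (-(ga n d - 14) / 64)) ≤
      m * (4 ^ t * Real.exp (-(ga n d - 14) / 64)) :=
    mul_le_mul_of_nonneg_right h3 (by positivity)
  have h5 : (m : ℝ) * Real.exp (-(ga n d - 14) / 64) * 4 ^ t =
      m * (4 ^ t * Real.exp (-(ga n d - 14) / 64)) := by ring
  rw [h5]
  linarith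

theorem covered_hit {m d : ℕ} (hd : 2 * d ≤ n) (hS : Covered S m d) (t : ℕ) :
    hitProb σ S t ≤
      ENNReal.ofReal (m * 4 ^ t * Real.exp (-(ga n d - 14) / 64)) := by
  rw [hit_eq]
  refine ENNReal.ofReal_le_ofReal ?_
  have := covered_miss σ S hd hS t
  linarith

end

/-! ### The sum -/

theorem log_four : Real.log 4 ≤ 139 / 100 := by
  rw [show (4 : ℝ) = 2 ^ 2 by norm_num, Real.log_pow]
  have := Real.log_two_lt_d9
  push_cast
  linarith

theorem geo (a : ℝ) (N : ℕ) :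
    ∑ t ∈ Finset.range N, (1 - a * 4 ^ t) = N - a * (4 ^ N - 1) / 3 := by
  induction N with
  | zero => simp
  | succ N ih =>
    rw [Finset.sum_range_succ, ih, pow_succ]
    push_cast
    ring

theorem numeric {n' : ℝ} {m : ℕ} {s : ℕ → ℝ} (h0 : s 0 = 1)
    (h : ∀ t, 1 - m * Real.exp (-(n' - 14) / 64) * 4 ^ t ≤ s t) :
    ∃ N : ℕ, n' / 256 - Real.log m ≤ ∑ t ∈ Finset.range N, s t := by
  by_cases hB : n' / 256 - Real.log m ≤ 1
  · refine ⟨1, ?_⟩
    rw [Finset.sum_range_one, h0]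
    exact hB
  push Not at hB
  rcases Nat.eq_zero_or_pos m with rfl | hm
  · obtain ⟨N, hN⟩ := exists_nat_ge (n' / 256 - Real.log ((0 : ℕ) : ℝ))
    refine ⟨N, hN.trans ?_⟩
    calc (N : ℝ) = ∑ _t ∈ Finset.range N, (1 : ℝ) := by simp
      _ ≤ _ := Finset.sum_le_sum fun t _ => by
        have := h t
        simpa using this
  have hm1 : (1 : ℝ) ≤ m := by exact_mod_cast hm
  have hlm : 0 ≤ Real.log m := Real.log_nonneg hm1
  have hl4 : 0 < Real.log 4 := Real.log_pos (by norm_num)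
  set Y : ℝ := (n' - 14) / 64 - Real.log m with hY
  have hY0 : 0 < Y := by
    rw [hY]
    linarith
  set y : ℝ := Y / Real.log 4 with hy
  have hy0 : 0 ≤ y := (div_pos hY0 hl4).le
  have ha : (m : ℝ) * Real.exp (-(n' - 14) / 64) = Real.exp (-(y * Real.log 4)) := by
    rw [hy, div_mul_cancel₀ _ hl4.ne', hY]
    conv_lhs => rw [← Real.exp_log (show (0 : ℝ) < m by linarith)]
    rw [← Real.exp_add]
    congr 1
    ring
  refine ⟨⌊y⌋₊ + 1, ?_⟩
  have h1 : ∑ t ∈ Finset.range (⌊y⌋₊ + 1), (1 - m * Real.exp (-(n' - 14) / 64) * 4 ^ t) ≤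
      ∑ t ∈ Finset.range (⌊y⌋₊ + 1), s t := Finset.sum_le_sum fun t _ => h t
  refine le_trans ?_ h1
  rw [geo, ha]
  have h2 : Real.exp (-(y * Real.log 4)) * 4 ^ ⌊y⌋₊ ≤ 1 := by
    have h3 : (4 : ℝ) ^ ⌊y⌋₊ = Real.exp (⌊y⌋₊ * Real.log 4) := by
      rw [Real.exp_nat_mul, Real.exp_log (by norm_num)]
    rw [h3, ← Real.exp_add]
    refine Real.exp_le_one_iff.2 ?_
    have := mul_le_mul_of_nonneg_right (Nat.floor_le hy0) hl4.le
    linarith
  have h4 : y < ⌊y⌋₊ + 1 := Nat.lt_floor_add_one y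
  have h5 : Y / (139 / 100) ≤ y := by
    rw [hy]
    exact div_le_div_of_nonneg_left hY0.le hl4 log_four
  have h6 := Real.exp_pos (-(y * Real.log 4))
  rw [pow_succ]
  push_cast
  have h7 : n' / 256 - Real.log m + 4 / 3 ≤ Y / (139 / 100) := by
    rw [le_div_iff₀ (by norm_num), hY]
    linarith
  nlinarith

theorem covered_time {n : ℕ} (σ : Strategy n 2) (S : Set (Pt n)) {m d : ℕ} (hd : 2 * d ≤ n)
    (hS : Covered S m d) : ENNReal.ofReal (ga n d / 256 - Real.log m) ≤ hitTime σ S := by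
  obtain ⟨N, hN⟩ := numeric (n' := ga n d) (nS_one σ S) (covered_miss σ S hd hS)
  refine (ENNReal.ofReal_le_ofReal hN).trans ?_
  rw [ENNReal.ofReal_sum_of_nonneg fun t _ => nS_nonneg σ S t]
  unfold hitTime
  simp only [nS_eq]
  exact ENNReal.sum_le_tsum _

theorem one_le_time {n : ℕ} (σ : Strategy n 2) (S : Set (Pt n)) : 1 ≤ hitTime σ S := by
  unfold hitTime
  simp only [nS_eq]
  calc (1 : ℝ≥0∞) = ENNReal.ofReal (Ex (run σ 0) (nS S)) := by rw [nS_one, ENNReal.ofReal_one]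
    _ ≤ _ := ENNReal.le_tsum 0

theorem unique_time {n : ℕ} (σ : Strategy n 2) (z : Pt n) : (n : ℝ≥0∞) / 64 ≤ hitTime σ {z} := by
  have h0 := one_le_time σ {z}
  have h1 := time_le σ z (d := 0) (by omega)
  have h2 : {y : Pt n | hammingDist y z ≤ 0} = {z} := by
    ext y
    simp
  rw [h2] at h1
  have h5 : (n : ℝ≥0∞) / 64 = ENNReal.ofReal ((n : ℝ) / 64) := by
    rw [ENNReal.ofReal_div_of_pos (by norm_num), ENNReal.ofReal_natCast]
    norm_num
  rw [h5]
  rcases le_total (n : ℝ) 64 with h | h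
  · refine le_trans ?_ h0
    rw [← ENNReal.ofReal_one]
    exact ENNReal.ofReal_le_ofReal (by linarith)
  · refine le_trans (ENNReal.ofReal_le_ofReal ?_) h1
    have hn : (0 : ℝ) < n := by linarith
    have h3 : ga n 0 = n := by
      unfold ga
      push_cast
      field_simp
      ring
    rw [h3]
    linarith

/-! ### Algorithms -/

theorem expected_ge {n : ℕ} (A : Algorithm n 2) (f : Pt n → ℕ) (c : ℝ≥0∞)
    (h : ∀ σ : Strategy n 2, c ≤ hitTime σ {y | IsMaximiser f y}) : c ≤ expectedTime A f := by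
  unfold expectedTime
  letI := A.mΩ
  calc c = ∫⁻ _ω, c ∂A.P := by rw [MeasureTheory.lintegral_const, A.prob, mul_one]
    _ ≤ _ := MeasureTheory.lintegral_mono fun ω => by
        refine (h (strat A ω f)).trans (le_of_eq ?_)
        unfold hitTime tailProb
        refine tsum_congr fun t => ?_
        rw [path_eq]
        rfl

end Pool.Agent.Y9.OM
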