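import Pool.Agent.Y9.OM.Exp
import Pool.Agent.Results.MP_f3079c_lc.BinaryLinear

/-!
# Strategies which see everything, and the time they need to come near a given point
-/

set_option autoImplicit false

namespace Pool.Agent.Y9.OM

open scoped ENNReal BigOperators
open Pool.Agent.Results.MP_f3079c_lc.BinaryLinear
open Pool.Agent.Helper143.OneMax (ip pr Z Dq Qd Phi Bdd ind sw Inv)

/-- A `k`-ary unbiased strategy that sees everything: when `t` points have been queried it chooses,
in dependence on these points themselves, at most `k` of them as parents and an unbiased operator. -/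
abbrev Strategy (n k : ℕ) : Type := (t : ℕ) → (Fin t → Pt n) → Choice n k t

/-- The joint distribution of the first `t` query points of a strategy. -/
noncomputable def run {n k : ℕ} (σ : Strategy n k) : (t : ℕ) → PMF (Fin t → Pt n)
  | 0 => PMF.pure (fun i => i.elim0)
  | t + 1 => (run σ t).bind (fun h =>
      ((σ t h).nextPoint h).map (fun y => (Fin.snoc h y : Fin (t + 1) → Pt n)))

/-- The probability that one of the first `t` query points is in `S`. -/
noncomputable def hitProb {n k : ℕ} (σ : Strategy n k) (S : Set (Pt n)) (t : ℕ) : ℝ≥0∞ :=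
  (run σ t).toOuterMeasure {h | ∃ i, h i ∈ S}

/-- The expected number of queries up to and including the first query point in `S`, as
`∑ₜ Pr[T > t]`. -/
noncomputable def hitTime {n k : ℕ} (σ : Strategy n k) (S : Set (Pt n)) : ℝ≥0∞ :=
  ∑' t, (run σ t).toOuterMeasure {h | ∀ i, h i ∉ S}

/-- `S` is covered by `m` Hamming balls of radius `d`. -/
def Covered {n : ℕ} (S : Set (Pt n)) (m d : ℕ) : Prop :=
  ∃ C : Finset (Pt n), C.card ≤ m ∧ ∀ y ∈ S, ∃ z ∈ C, hammingDist y z ≤ d

theorem om_eq {α : Type} [Fintype α] (p : PMF α) (S : Set α) [DecidablePred (· ∈ S)] :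
    p.toOuterMeasure S = ENNReal.ofReal (Ex p (fun a => if a ∈ S then 1 else 0)) := by
  classical
  rw [PMF.toOuterMeasure_apply_fintype]
  unfold Ex
  rw [ENNReal.ofReal_sum_of_nonneg]
  · refine Finset.sum_congr rfl (fun a _ => ?_)
    rw [Set.indicator_apply]
    by_cases h : a ∈ S
    · simp only [if_pos h, mul_one, ENNReal.ofReal_toReal (p.apply_ne_top a)]
    · simp only [if_neg h, mul_zero, ENNReal.ofReal_zero]
  · intro a _
    refine mul_nonneg ENNReal.toReal_nonneg ?_
    by_cases h : a ∈ S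
    · simp only [if_pos h]; norm_num
    · simp only [if_neg h]; norm_num

/-! ### The scaled list of sign vectors -/

/-- list of all sign vectors, times `c` -/
noncomputable def lc {n t : ℕ} (c : ℝ) (z : Pt n) (h : Fin t → Pt n) : List (Fin n → ℝ) :=
  (lst z h).map (sc c)

theorem lc_ne {n t : ℕ} (c : ℝ) (z : Pt n) (h : Fin t → Pt n) : lc c z h ≠ [] := by
  unfold lc
  simp [lst_ne z h]

theorem lc_bdd {n t : ℕ} {c : ℝ} (hc0 : 0 ≤ c) (hc : c ≤ 1) (z : Pt n) (h : Fin t → Pt n) :
    Bdd (lc c z h) := by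
  intro v hv i
  obtain ⟨u, hu, rfl⟩ := List.mem_map.1 hv
  unfold sc
  rw [abs_mul, abs_of_nonneg hc0]
  have h1 := lst_bdd z h u hu i
  have h2 := abs_nonneg (u i)
  nlinarith

theorem mem_lc {n t : ℕ} (c : ℝ) (z : Pt n) (h : Fin t → Pt n) (i : Fin t) :
    sc c (sg z (h i)) ∈ lc c z h := List.mem_map.2 ⟨_, mem_lst z h i, rfl⟩

theorem virt_mem_lc {n t : ℕ} (c : ℝ) (z : Pt n) (h : Fin t → Pt n) :
    sc c (sg z (virt z)) ∈ lc c z h := List.mem_map.2 ⟨_, virt_mem_lst z h, rfl⟩

theorem Z_map {n : ℕ} (c : ℝ) (L : List (Fin n → ℝ)) (q : Fin n → ℝ) :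
    Z (L.map (sc c)) q = Z L (sc c q) := by
  unfold Z
  rw [List.map_map]
  congr 1
  refine List.map_congr_left fun v _ => ?_
  exact pr_sc c q v

theorem Phi_lc_snoc {n t : ℕ} (c : ℝ) (z : Pt n) (h : Fin t → Pt n) (y : Pt n) :
    Phi (lc c z (Fin.snoc h y : Fin (t + 1) → Pt n)) = Phi (sc c (sg z y) :: lc c z h) := by
  apply Phi_congr
  intro q
  unfold lc
  rw [Z_map, Pool.Agent.Helper143.OneMax.Z_cons, Z_map, pr_sc]
  unfold lst
  rw [Pool.Agent.Helper143.OneMax.Z_cons, Pool.Agent.Helper143.OneMax.Z_cons, Z_ofFn, Z_ofFn,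
    Fin.sum_univ_castSucc]
  simp only [Fin.snoc_castSucc, Fin.snoc_last]
  ring

theorem Phi_lc_virt {n : ℕ} {c : ℝ} (hc0 : 0 ≤ c) (hc : c ≤ 1) (z : Pt n) (h : Fin 0 → Pt n) :
    (n : ℝ) - 14 ≤ Phi (lc c z h) := by
  have h1 := Pool.Agent.Helper143.OneMax.Dq_le_Phi (lc_ne c z h) (fun _ => (1 : ℝ))
  refine le_trans ?_ h1
  unfold Dq
  have h2 : Qd (fun _ : Fin n => (1 : ℝ)) = n := by
    unfold Qd
    norm_num
  have h3 : ip (fun _ : Fin n => (1 : ℝ)) (sg z (virt z)) = if Even n then 0 else 1 := by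
    have e1 : ip (fun _ : Fin n => (1 : ℝ)) (sg z (virt z)) = ∑ k : Fin n, (-1 : ℝ) ^ (k : ℕ) := by
      unfold ip
      refine Finset.sum_congr rfl (fun k _ => ?_)
      unfold sg virt
      rcases Nat.even_or_odd k.val with hk | hk
      · simp [hk, hk.neg_one_pow]
      · have hk' : ¬ Even k.val := Nat.not_even_iff_odd.2 hk
        simp only [if_neg hk', one_mul, hk.neg_one_pow]
        cases z k <;> simp
    rw [e1, ← Finset.sum_range (fun k => (-1 : ℝ) ^ k)]
    exact neg_one_geom_sum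
  have h3' : |ip (fun _ : Fin n => (1 : ℝ)) (sc c (sg z (virt z)))| ≤ 1 := by
    rw [ip_sc, h3, abs_mul, abs_of_nonneg hc0]
    split_ifs
    · simp
    · simpa using hc
  have h4 : Z (lc c z h) (fun _ => 1) = pr (fun _ => 1) (sc c (sg z (virt z))) := by
    unfold lc
    rw [Z_map, pr_sc]
    unfold lst
    rw [Pool.Agent.Helper143.OneMax.Z_cons, Z_ofFn]
    simp
  have h5 : pr (fun _ => 1) (sc c (sg z (virt z))) ≤ 2 * Real.exp (1 / 8) := by
    unfold pr
    obtain ⟨h6, h7⟩ := abs_le.1 h3'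
    have h8 : Real.exp (ip (fun _ : Fin n => (1 : ℝ)) (sc c (sg z (virt z))) / 8) ≤
        Real.exp (1 / 8) := Real.exp_le_exp.2 (by linarith)
    have h9 : Real.exp (-ip (fun _ : Fin n => (1 : ℝ)) (sc c (sg z (virt z))) / 8) ≤
        Real.exp (1 / 8) := Real.exp_le_exp.2 (by linarith)
    linarith
  have h6 : Real.log (Z (lc c z h) (fun _ => 1)) ≤ Real.log 2 + 1 / 8 := by
    rw [h4]
    have := Real.log_le_log (Pool.Agent.Helper143.OneMax.pr_pos _ _) h5
    rwa [Real.log_mul (by norm_num) (Real.exp_pos _).ne', Real.log_exp] at this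
  have h7 := Real.log_two_lt_d9
  rw [h2]
  linarith

/-- upper bound for the potential when a point at distance at most `d` has been queried -/
noncomputable def bd (n : ℕ) (c : ℝ) (d : ℕ) : ℝ := n * (1 + c ^ 2) - 2 * c * (n - 2 * d)

theorem Phi_near {n : ℕ} {c : ℝ} (hc0 : 0 ≤ c) {L : List (Fin n → ℝ)} {z y : Pt n} {d : ℕ}
    (h : sc c (sg z y) ∈ L) (hd : hammingDist y z ≤ d) : Phi L ≤ bd n c d := by
  refine ciSup_le (fun q => ?_)
  have h1 := Pool.Agent.Helper143.OneMax.pr_le_Z h q
  have h2 : Real.exp (ip q (sc c (sg z y)) / 8) ≤ Z L q :=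
    (le_add_of_nonneg_right (Real.exp_pos _).le).trans h1
  have h3 := Real.log_le_log (Real.exp_pos _) h2
  rw [Real.log_exp] at h3
  have h4 : Qd q - 2 * ip q (sc c (sg z y)) ≤
      n * (1 + c ^ 2) - 2 * c * (n - 2 * (hammingDist y z : ℝ)) := by
    have h5 : n * (1 + c ^ 2) - 2 * c * (n - 2 * (hammingDist y z : ℝ)) =
        ∑ k : Fin n, ((1 + c ^ 2 - 2 * c) + 4 * c * (if y k ≠ z k then 1 else 0)) := by
      rw [Finset.sum_add_distrib, ← Finset.mul_sum, Finset.sum_const, Finset.card_univ,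
        Fintype.card_fin, nsmul_eq_mul]
      unfold hammingDist
      rw [Finset.card_filter]
      push_cast
      ring
    rw [h5]
    unfold Qd ip sc
    rw [Finset.mul_sum, ← Finset.sum_sub_distrib]
    refine Finset.sum_le_sum (fun k _ => ?_)
    unfold sg
    by_cases hk : y k = z k
    · rw [if_pos hk, if_neg (by simpa using hk)]
      nlinarith [sq_nonneg (q k - (1 - c))]
    · rw [if_neg hk, if_pos hk]
      nlinarith [sq_nonneg (q k - (1 + c))]
  have h6 : (hammingDist y z : ℝ) ≤ d := by exact_mod_cast hd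
  have h7 : c * (hammingDist y z : ℝ) ≤ c * d := mul_le_mul_of_nonneg_left h6 hc0
  unfold Dq bd
  linarith

/-! ### One query -/

section query

variable {n : ℕ} {c : ℝ} (hc0 : 0 < c) (hc1 : c ≤ 1)

include hc0 in
theorem query_both {j : ℕ} (op : UnbiasedOp n j) (x : Fin j → Pt n) (z x0 x1 : Pt n)
    (hx : ∀ i, x i = x0 ∨ x i = x1) {L : List (Fin n → ℝ)} (hL : L ≠ []) (hB : Bdd L)
    (h0 : sc c (sg z x0) ∈ L) (h1 : sc c (sg z x1) ∈ L) :
    Ex (op.law x) (fun y => Real.exp (-Phi (sc c (sg z y) :: L) / 64)) ≤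
      4 * Real.exp (-Phi L / 64) ∧
    Phi L - 50 ≤ Ex (op.law x) (fun y => Phi (sc c (sg z y) :: L)) := by
  classical
  set D : Finset (Fin n) := Finset.univ.filter (fun k => x0 k ≠ x1 k) with hD
  set w : (Fin n → Bool) → ℝ := fun f => (op.law x (xorPt x0 f)).toReal with hw
  have hinv : ∀ k l : Fin n, (x0 k = x1 k ↔ x0 l = x1 l) → ∀ f, w (sw k l f) = w f := by
    intro k l hkl f
    simp only [hw]
    rw [op_inv]
    intro i
    rcases hx i with h | h
    · rw [h]; simp
    · rw [h]
      revert hkl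
      cases x0 k <;> cases x1 k <;> cases x0 l <;> cases x1 l <;> simp
  have hwD : Inv D w := by
    intro k hk l hl f
    simp only [hD, Finset.mem_filter, Finset.mem_univ, true_and] at hk hl
    exact hinv k l (by simp [hk, hl]) f
  have hwA : Inv Dᶜ w := by
    intro k hk l hl f
    simp only [hD, Finset.mem_compl, Finset.mem_filter, Finset.mem_univ, true_and, not_not]
      at hk hl
    exact hinv k l (by simp [hk, hl]) f
  have hsum : ∑ f, w f = 1 := by
    have := sum_toReal (op.law x)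
    rw [← Equiv.sum_comp (xorEquiv x0)] at this
    exact this
  have hy : ∀ k, sg z x1 k = if k ∈ D then -sg z x0 k else sg z x0 k := by
    intro k
    simp only [hD, Finset.mem_filter, Finset.mem_univ, true_and, sg]
    cases x0 k <;> cases x1 k <;> cases z k <;> simp
  have hE : ∀ F : (Fin n → ℝ) → ℝ, Ex (op.law x) (fun y => F (sg z y)) =
      ∑ f, w f * F (fun k => sg z x0 k * (1 - 2 * ind f k)) := by
    intro F
    unfold Ex
    rw [← Equiv.sum_comp (xorEquiv x0) (fun y => (op.law x y).toReal * F (sg z y))]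
    refine Finset.sum_congr rfl (fun f _ => ?_)
    have : (xorEquiv x0) f = xorPt x0 f := rfl
    rw [this, sg_xor]
  constructor
  · rw [hE (fun v => Real.exp (-Phi (sc c v :: L) / 64))]
    exact step_exp hL hB hc0.ne' D (sg z x0) (sg z x1) h0 h1 (sg_sq z x0) hy w
      (fun f => ENNReal.toReal_nonneg) hwD hwA hsum
  · rw [hE (fun v => Phi (sc c v :: L))]
    exact step_lin hL hB hc0.ne' D (sg z x0) (sg z x1) h0 h1 (sg_sq z x0) hy w
      (fun f => ENNReal.toReal_nonneg) hwD hwA hsum

include hc0 hc1 in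
theorem choice_both {t : ℕ} (a : Choice n 2 t) (h : Fin t → Pt n) (z : Pt n) :
    Ex (a.nextPoint h) (fun y => Real.exp (-Phi (sc c (sg z y) :: lc c z h) / 64)) ≤
      4 * Real.exp (-Phi (lc c z h) / 64) ∧
    Phi (lc c z h) - 50 ≤ Ex (a.nextPoint h) (fun y => Phi (sc c (sg z y) :: lc c z h)) := by
  obtain ⟨j, hj, par, op⟩ := a
  unfold Choice.nextPoint
  simp only
  have hB := lc_bdd hc0.le hc1 z h
  interval_cases j
  · exact query_both hc0 op _ z (virt z) (virt z) (fun i => i.elim0) (lc_ne c z h) hB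
      (virt_mem_lc c z h) (virt_mem_lc c z h)
  · exact query_both hc0 op _ z (h (par 0)) (h (par 0)) (fun i => by
      left; congr 2; exact Subsingleton.elim _ _) (lc_ne c z h) hB
      (mem_lc c z h _) (mem_lc c z h _)
  · exact query_both hc0 op _ z (h (par 0)) (h (par 1)) (fun i => by
      fin_cases i
      · left; rfl
      · right; rfl) (lc_ne c z h) hB
      (mem_lc c z h _) (mem_lc c z h _)

end query

/-! ### The stopped potentials -/

section stopped

variable {n : ℕ} {c : ℝ} (hc0 : 0 < c) (hc1 : c ≤ 1) (σ : Strategy n 2) (z : Pt n) (d : ℕ)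

open Classical in
/-- indicator that no query point is near the target -/
noncomputable def nh {n t : ℕ} (z : Pt n) (d : ℕ) (h : Fin t → Pt n) : ℝ :=
  if ∀ i, d < hammingDist (h i) z then 1 else 0

theorem nh_snoc {t : ℕ} (h : Fin t → Pt n) (y : Pt n) :
    nh z d (Fin.snoc h y : Fin (t + 1) → Pt n) =
      if d < hammingDist y z then nh z d h else 0 := by
  unfold nh
  by_cases hy : d < hammingDist y z
  · rw [if_pos hy]
    refine if_congr ?_ rfl rfl
    rw [Fin.forall_fin_succ']
    simp only [Fin.snoc_castSucc, Fin.snoc_last]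
    exact and_iff_left hy
  · rw [if_neg hy, if_neg]
    intro hc
    have := hc (Fin.last t)
    rw [Fin.snoc_last] at this
    exact hy this

theorem nh_cases {t : ℕ} (h : Fin t → Pt n) : nh z d h = 1 ∨ nh z d h = 0 := by
  unfold nh
  split_ifs
  · exact Or.inl rfl
  · exact Or.inr rfl

theorem nh_zero (h : Fin 0 → Pt n) : nh z d h = 1 := by
  unfold nh
  rw [if_pos (fun i => i.elim0)]

/-- the stopped exponential potential -/
noncomputable def FF (c : ℝ) {t : ℕ} (h : Fin t → Pt n) : ℝ :=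
  nh z d h * Real.exp (-Phi (lc c z h) / 64) + (1 - nh z d h) * Real.exp (-bd n c d / 64)

/-- the stopped potential -/
noncomputable def GG (c : ℝ) {t : ℕ} (h : Fin t → Pt n) : ℝ :=
  nh z d h * Phi (lc c z h) + (1 - nh z d h) * bd n c d

include hc0 in
theorem Phi_snoc_near {t : ℕ} (h : Fin t → Pt n) {y : Pt n} (hy : ¬ d < hammingDist y z) :
    Phi (sc c (sg z y) :: lc c z h) ≤ bd n c d :=
  Phi_near hc0.le List.mem_cons_self (not_lt.1 hy)

theorem run_succ (t : ℕ) (F : (Fin (t + 1) → Pt n) → ℝ) :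
    Ex (run σ (t + 1)) F = Ex (run σ t) (fun h => Ex ((σ t h).nextPoint h)
      (fun y => F (Fin.snoc h y : Fin (t + 1) → Pt n))) := by
  rw [run, Ex_bind]
  congr 1
  funext h
  rw [Ex_map]

include hc0 hc1 in
theorem FF_step (t : ℕ) : Ex (run σ (t + 1)) (FF z d c) ≤ 4 * Ex (run σ t) (FF z d c) := by
  rw [run_succ, mul_comm, ← Ex_mul_const]
  refine Ex_mono _ (fun h => ?_)
  rcases nh_cases z d h with hh | hh
  · have h1 : FF z d c h = Real.exp (-Phi (lc c z h) / 64) := by unfold FF; rw [hh]; ring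
    rw [h1, mul_comm]
    refine le_trans (Ex_mono _ (fun y => ?_)) (choice_both hc0 hc1 (σ t h) h z).1
    unfold FF
    rw [nh_snoc, hh]
    by_cases hy : d < hammingDist y z
    · rw [if_pos hy, Phi_lc_snoc]
      simp
    · rw [if_neg hy]
      have := Phi_snoc_near hc0 z d h hy
      simp only [zero_mul, zero_add, sub_zero, one_mul]
      exact Real.exp_le_exp.2 (by linarith)
  · have h1 : FF z d c h = Real.exp (-bd n c d / 64) := by unfold FF; rw [hh]; ring
    rw [h1]
    have h2 : ∀ y, FF z d c (Fin.snoc h y : Fin (t + 1) → Pt n) = Real.exp (-bd n c d / 64) := by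
      intro y
      unfold FF
      rw [nh_snoc, hh]
      split_ifs <;> ring
    simp only [h2]
    rw [Ex_const]
    have := Real.exp_pos (-bd n c d / 64)
    linarith

include hc0 hc1 in
theorem FF_le (t : ℕ) :
    Ex (run σ t) (FF z d c) ≤ 4 ^ t * Real.exp (-((n : ℝ) - 14) / 64) := by
  induction t with
  | zero =>
    rw [run, Ex_pure, pow_zero, one_mul]
    unfold FF
    rw [nh_zero]
    have := Phi_lc_virt hc0.le hc1 z (fun i : Fin 0 => (i.elim0 : Pt n))
    simp only [one_mul, sub_self, zero_mul, add_zero]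
    exact Real.exp_le_exp.2 (by linarith)
  | succ t ih =>
    refine (FF_step hc0 hc1 σ z d t).trans ?_
    rw [pow_succ]
    linarith

include hc0 hc1 in
theorem miss_ge_c (t : ℕ) : 1 - 4 ^ t * Real.exp (-((n : ℝ) - bd n c d - 14) / 64) ≤
    Ex (run σ t) (nh z d) := by
  have h1 := FF_le hc0 hc1 σ z d t
  have h2 : Ex (run σ t) (fun h => (1 - nh z d h) * Real.exp (-bd n c d / 64)) ≤
      Ex (run σ t) (FF z d c) := by
    refine Ex_mono _ (fun h => ?_)
    unfold FF
    have := Real.exp_pos (-Phi (lc c z h) / 64)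
    rcases nh_cases z d h with hh | hh <;> rw [hh] <;> linarith
  rw [Ex_mul_const, Ex_sub, Ex_const] at h2
  have h3 : (1 - Ex (run σ t) (nh z d)) * Real.exp (-bd n c d / 64) ≤
      4 ^ t * Real.exp (-((n : ℝ) - 14) / 64) := h2.trans h1
  have h4 : Real.exp (-((n : ℝ) - 14) / 64) =
      Real.exp (-((n : ℝ) - bd n c d - 14) / 64) * Real.exp (-bd n c d / 64) := by
    rw [← Real.exp_add]; congr 1; ring
  rw [h4, ← mul_assoc] at h3
  have h5 := le_of_mul_le_mul_right h3 (Real.exp_pos _)
  linarith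

include hc0 hc1 in
theorem GG_step (t : ℕ) : Ex (run σ t) (GG z d c) - 50 * Ex (run σ t) (nh z d) ≤
    Ex (run σ (t + 1)) (GG z d c) := by
  have h2 : Ex (run σ t) (GG z d c) - 50 * Ex (run σ t) (nh z d)
      = Ex (run σ t) (fun h => GG z d c h - nh z d h * 50) := by
    rw [Ex_sub, Ex_mul_const]
    ring
  rw [run_succ, h2]
  refine Ex_mono _ (fun h => ?_)
  rcases nh_cases z d h with hh | hh
  · have h1 : GG z d c h = Phi (lc c z h) := by unfold GG; rw [hh]; ring
    rw [h1, hh, one_mul]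
    refine (choice_both hc0 hc1 (σ t h) h z).2.trans (Ex_mono _ (fun y => ?_))
    unfold GG
    rw [nh_snoc, hh]
    by_cases hy : d < hammingDist y z
    · rw [if_pos hy, Phi_lc_snoc]
      simp
    · rw [if_neg hy]
      have := Phi_snoc_near hc0 z d h hy
      linarith
  · have h1 : GG z d c h = bd n c d := by unfold GG; rw [hh]; ring
    rw [h1, hh]
    have h3 : ∀ y, GG z d c (Fin.snoc h y : Fin (t + 1) → Pt n) = bd n c d := by
      intro y
      unfold GG
      rw [nh_snoc, hh]
      split_ifs <;> ring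
    simp only [h3]
    rw [Ex_const]
    linarith

include hc0 hc1 in
theorem miss_sum (t : ℕ) : (n : ℝ) - 14 - 50 * ∑ s ∈ Finset.range t, Ex (run σ s) (nh z d) ≤
    n * Ex (run σ t) (nh z d) + bd n c d * (1 - Ex (run σ t) (nh z d)) := by
  have h1 : Ex (run σ t) (GG z d c) ≤
      n * Ex (run σ t) (nh z d) + bd n c d * (1 - Ex (run σ t) (nh z d)) := by
    have h2 : n * Ex (run σ t) (nh z d) + bd n c d * (1 - Ex (run σ t) (nh z d)) =
        Ex (run σ t) (fun h => bd n c d - nh z d h * (bd n c d - n)) := by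
      rw [Ex_sub, Ex_const, Ex_mul_const]
      ring
    rw [h2]
    refine Ex_mono _ (fun h => ?_)
    unfold GG
    have := Pool.Agent.Helper143.OneMax.Phi_le (lc_ne c z h)
    rw [Fintype.card_fin] at this
    rcases nh_cases z d h with hh | hh <;> rw [hh] <;> linarith
  refine le_trans ?_ h1
  clear h1
  induction t with
  | zero =>
    rw [run, Ex_pure]
    unfold GG
    rw [nh_zero]
    have := Phi_lc_virt hc0.le hc1 z (fun i : Fin 0 => (i.elim0 : Pt n))
    simpa using this
  | succ t ih =>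
    rw [Finset.sum_range_succ]
    have := GG_step hc0 hc1 σ z d t
    linarith

theorem miss_eq (t : ℕ) : (run σ t).toOuterMeasure {h | ∀ i, d < hammingDist (h i) z} =
    ENNReal.ofReal (Ex (run σ t) (nh z d)) := by
  classical
  rw [om_eq]
  rfl

theorem miss_nonneg (t : ℕ) : 0 ≤ Ex (run σ t) (nh z d) := by
  have := Ex_mono (run σ t) (F := fun _ => 0) (G := nh z d) (fun h => by
    rcases nh_cases z d h with hh | hh <;> rw [hh]; norm_num)
  rwa [Ex_const] at this

include hc0 hc1 in
theorem time_le_c : ENNReal.ofReal (((n : ℝ) - bd n c d - 14) / 50) ≤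
    hitTime σ {y | hammingDist y z ≤ d} := by
  unfold hitTime
  simp only [Set.mem_ofPred_eq, not_le]
  by_cases htop : ∑' t, (run σ t).toOuterMeasure {h | ∀ i, d < hammingDist (h i) z} = ⊤
  · rw [htop]; exact le_top
  simp only [miss_eq] at htop ⊢
  have hnn := miss_nonneg σ z d
  set S : ℝ := (∑' t, ENNReal.ofReal (Ex (run σ t) (nh z d))).toReal with hS
  have hsum : ∀ t, ∑ s ∈ Finset.range t, Ex (run σ s) (nh z d) ≤ S := by
    intro t
    have h1 : ∑ s ∈ Finset.range t, ENNReal.ofReal (Ex (run σ s) (nh z d)) ≤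
        ∑' t, ENNReal.ofReal (Ex (run σ t) (nh z d)) := ENNReal.sum_le_tsum _
    have h2 := ENNReal.toReal_mono htop h1
    rw [ENNReal.toReal_sum (fun s _ => ENNReal.ofReal_ne_top)] at h2
    simpa only [ENNReal.toReal_ofReal (hnn _)] using h2
  have hlim : Filter.Tendsto (fun t => Ex (run σ t) (nh z d)) Filter.atTop (nhds 0) := by
    have h1 := ENNReal.tendsto_atTop_zero_of_tsum_ne_top htop
    have h2 := (ENNReal.tendsto_toReal (ENNReal.zero_ne_top)).comp h1
    simpa [Function.comp_def, ENNReal.toReal_ofReal (hnn _)] using h2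
  have h1 : ∀ t, (n : ℝ) - 14 - 50 * S ≤
      n * Ex (run σ t) (nh z d) + bd n c d * (1 - Ex (run σ t) (nh z d)) := by
    intro t
    have := miss_sum hc0 hc1 σ z d t
    have := hsum t
    linarith
  have h2 : (n : ℝ) - 14 - 50 * S ≤ n * 0 + bd n c d * (1 - 0) :=
    ge_of_tendsto' ((hlim.const_mul (n : ℝ)).add ((tendsto_const_nhds.sub hlim).const_mul
      (bd n c d))) h1
  exact (ENNReal.ofReal_le_iff_le_toReal htop).2 (by linarith)

end stopped

/-! ### The best scale -/

section best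

variable {n : ℕ} (σ : Strategy n 2) (z : Pt n) {d : ℕ}

/-- the quantity that governs the distance `d` -/
noncomputable def ga (n d : ℕ) : ℝ := ((n : ℝ) - 2 * d) ^ 2 / n

theorem ga_eq {n d : ℕ} (h : 2 * d < n) :
    ∃ c : ℝ, 0 < c ∧ c ≤ 1 ∧ (n : ℝ) - bd n c d = ga n d := by
  have hn : (0 : ℝ) < n := by
    have : 0 < n := by omega
    exact_mod_cast this
  have h1 : (2 * d : ℝ) < n := by exact_mod_cast h
  have hd : (0 : ℝ) ≤ d := Nat.cast_nonneg _
  refine ⟨((n : ℝ) - 2 * d) / n, div_pos (by linarith) hn, ?_, ?_⟩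
  · rw [div_le_one hn]
    linarith
  · unfold bd ga
    field_simp
    ring

theorem ga_zero {n d : ℕ} (h : 2 * d = n) : ga n d = 0 := by
  unfold ga
  rw [← h]
  push_cast
  simp

theorem miss_ge (hd : 2 * d ≤ n) (t : ℕ) :
    1 - 4 ^ t * Real.exp (-(ga n d - 14) / 64) ≤ Ex (run σ t) (nh z d) := by
  rcases hd.lt_or_eq with h | h
  · obtain ⟨c, hc0, hc1, hc⟩ := ga_eq h
    have := miss_ge_c hc0 hc1 σ z d t
    rwa [hc] at this
  · rw [ga_zero h]
    have h1 := miss_nonneg σ z d t
    have h2 : (1 : ℝ) ≤ 4 ^ t := one_le_pow₀ (by norm_num)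
    have h3 : (1 : ℝ) ≤ Real.exp (-(0 - 14) / 64) := Real.one_le_exp (by norm_num)
    nlinarith

theorem time_le (hd : 2 * d ≤ n) : ENNReal.ofReal ((ga n d - 14) / 50) ≤
    hitTime σ {y | hammingDist y z ≤ d} := by
  rcases hd.lt_or_eq with h | h
  · obtain ⟨c, hc0, hc1, hc⟩ := ga_eq h
    have := time_le_c hc0 hc1 σ z d
    rwa [hc] at this
  · rw [ga_zero h, ENNReal.ofReal_of_nonpos (by norm_num)]
    exact zero_le

end best

/-! ### Algorithms are strategies -/

/-- The strategy of an algorithm with objective function `f`, given its random element. -/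
noncomputable def strat {n k : ℕ} (A : Algorithm n k) (ω : A.Ω) (f : Pt n → ℕ) : Strategy n k
  | 0, _ => ⟨0, Nat.zero_le _, fun i => i.elim0, uniformOp n 0⟩
  | t + 1, h => A.choose ω t (fun i => f (h i))

theorem path_eq {n k : ℕ} (A : Algorithm n k) (ω : A.Ω) (f : Pt n → ℕ) (t : ℕ) :
    pathLaw A ω f t = run (strat A ω f) t := by
  induction t with
  | zero => rfl
  | succ t ih =>
    rw [pathLaw, run, ih]
    congr 1
    funext h
    cases t with
    | zero => rfl
    | succ t => rfl

end Pool.Agent.Y9.OM
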